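import Mathlib
import Pool.Agent.N206.CG.Stm2

/-!
Project CG (helper206), leaf NR: index and uniqueness rules for the normal subgroups (helper291).
-/

set_option autoImplicit false

namespace Pool.Agent.N291.CG

open Pool.Agent.N206.CG

variable {L : Loc} (S : Sys L)

theorem le_of (l : ℕ) (R : Subgroup (Equiv.Perm (L.E l))) (n : ℕ) (N : Subgroup (S.D n))
    (h : S.IsN l R n N) : n ≤ l := by
  induction h with
  | base => exact le_rfl
  | step n N M _ _ ih => omega

theorem inv_eq (l : ℕ) (R : Subgroup (Equiv.Perm (L.E l))) (N : Subgroup (S.D l))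
    (h : S.IsN l R l N) : N = R.comap (S.root l) := by
  cases h with
  | base => rfl
  | step n N M hM _ =>
    have := le_of S l R _ _ hM
    omega

theorem inv_lt (l : ℕ) (R : Subgroup (Equiv.Perm (L.E l))) (n : ℕ) (N : Subgroup (S.D n))
    (hn : n < l) (h : S.IsN l R n N) : ∃ M : Subgroup (S.D (n + 1)), S.IsN l R (n + 1) M ∧
      ∀ d, d ∈ N ↔ S.root n d = 1 ∧ ∀ x, S.sec n d x ∈ M := by
  cases h with
  | base => exact absurd hn (lt_irrefl _)
  | step n N M hM hd => exact ⟨M, hM, hd⟩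

theorem mem_M (n : ℕ) (N : Subgroup (S.D n)) (M : Subgroup (S.D (n + 1)))
    (hd : ∀ d, d ∈ N ↔ S.root n d = 1 ∧ ∀ x, S.sec n d x ∈ M) (x : L.E n) (g : S.D (n + 1)) :
    g ∈ M ↔ S.lam n x g ∈ N := by
  rw [hd]
  constructor
  · intro hg
    refine ⟨by simp, fun y => ?_⟩
    rw [S.sec_lam]
    split_ifs
    · exact hg
    · exact M.one_mem
  · rintro ⟨_, h⟩
    simpa using h x

theorem M_eq (n : ℕ) (N : Subgroup (S.D n)) (M M' : Subgroup (S.D (n + 1)))
    (hd : ∀ d, d ∈ N ↔ S.root n d = 1 ∧ ∀ x, S.sec n d x ∈ M)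
    (hd' : ∀ d, d ∈ N ↔ S.root n d = 1 ∧ ∀ x, S.sec n d x ∈ M') : M = M' := by
  ext g
  rw [mem_M S n N M hd (L.z n), mem_M S n N M' hd' (L.z n)]

theorem uni (l : ℕ) (R : Subgroup (Equiv.Perm (L.E l))) (n : ℕ) (N N' : Subgroup (S.D n))
    (h : S.IsN l R n N) (h' : S.IsN l R n N') : N = N' := by
  induction h with
  | base => exact (inv_eq S l R N' h').symm
  | step n N M hM hd ih =>
    have hn := le_of S l R _ _ hM
    obtain ⟨M', hM', hd'⟩ := inv_lt S l R n N' (by omega) h'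
    have := ih M' hM'
    subst this
    ext d
    rw [hd, hd']

theorem inj (l : ℕ) (R R' : Subgroup (Equiv.Perm (L.E l))) (hR : R ≤ L.P l) (hR' : R' ≤ L.P l)
    (n : ℕ) (N : Subgroup (S.D n)) (h : S.IsN l R n N) (h' : S.IsN l R' n N) : R = R' := by
  induction h with
  | base =>
    have h1 := inv_eq S l R' _ h'
    ext r
    constructor
    · intro hr
      have h2 : S.rt l ⟨r, hR hr⟩ ∈ R.comap (S.root l) := by
        rw [Subgroup.mem_comap, S.root_rt]; exact hr
      rw [h1, Subgroup.mem_comap, S.root_rt] at h2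
      exact h2
    · intro hr
      have h2 : S.rt l ⟨r, hR' hr⟩ ∈ R'.comap (S.root l) := by
        rw [Subgroup.mem_comap, S.root_rt]; exact hr
      rw [← h1, Subgroup.mem_comap, S.root_rt] at h2
      exact h2
  | step n N M hM hd ih =>
    have hn := le_of S l R _ _ hM
    obtain ⟨M', hM', hd'⟩ := inv_lt S l R' n N (by omega) h'
    have := M_eq S n N M M' hd hd'
    subst this
    exact ih hM'

/-- the subgroup of elements with root one and sections in `M` -/
def nx (n : ℕ) (M : Subgroup (S.D (n + 1))) : Subgroup (S.D n) where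
  carrier := {d | S.root n d = 1 ∧ ∀ x, S.sec n d x ∈ M}
  one_mem' := ⟨map_one _, fun x => by rw [S.sec_one]; exact M.one_mem⟩
  mul_mem' := by
    rintro a b ⟨ha, ha'⟩ ⟨hb, hb'⟩
    refine ⟨by rw [map_mul, ha, hb, one_mul], fun x => ?_⟩
    rw [S.sec_mul]
    exact M.mul_mem (ha' _) (hb' _)
  inv_mem' := by
    rintro a ⟨ha, ha'⟩
    refine ⟨by rw [map_inv, ha, inv_one], fun x => ?_⟩
    rw [S.sec_inv]
    exact M.inv_mem (ha' _)

theorem exi (l : ℕ) (R : Subgroup (Equiv.Perm (L.E l)))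
    (hR : ∀ g ∈ L.P l, ∀ r ∈ R, g * r * g⁻¹ ∈ R) (k : ℕ) : ∀ n, n + k = l →
    ∃ N : Subgroup (S.D n), N.Normal ∧ S.IsN l R n N := by
  induction k with
  | zero =>
    intro n hn
    have : n = l := by omega
    subst this
    refine ⟨R.comap (S.root n), ⟨fun d hd e => ?_⟩, Sys.IsN.base⟩
    rw [Subgroup.mem_comap] at hd ⊢
    rw [map_mul, map_mul, map_inv]
    exact hR _ (S.root_mem n e) _ hd
  | succ k ih =>
    intro n hn
    obtain ⟨M, hM, hM'⟩ := ih (n + 1) (by omega)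
    refine ⟨nx S n M, ⟨fun d hd e => ?_⟩, Sys.IsN.step n _ M hM' (fun d => Iff.rfl)⟩
    obtain ⟨h1, h2⟩ := hd
    refine ⟨by rw [map_mul, map_mul, map_inv, h1]; group, fun y => ?_⟩
    rw [S.sec_mul, S.sec_mul, h1, Equiv.Perm.one_apply, S.sec_inv, map_inv]
    exact hM.conj_mem _ (h2 _) _

theorem jinv (l : ℕ) (R : Subgroup (Equiv.Perm (L.E l))) (hR : R ≤ L.P l) (n : ℕ)
    (N : Subgroup (S.D n)) (h : S.IsN l R n N) (hJ : ∀ d ∈ N, S.jay n d ∈ N) :
    ∀ r ∈ R, L.J l * r * (L.J l)⁻¹ ∈ R := by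
  induction h with
  | base =>
    intro r hr
    have h2 := hJ (S.rt l ⟨r, hR hr⟩) (by rw [Subgroup.mem_comap, S.root_rt]; exact hr)
    rw [Subgroup.mem_comap, S.root_jay, S.root_rt] at h2
    exact h2
  | step n N M hM hd ih =>
    apply ih
    intro d hdM
    have h1 := (mem_M S n N M hd (L.z n) d).1 hdM
    have h2 := ((hd _).1 (hJ _ h1)).2 (L.J n (L.z n))
    rw [S.sec_jay] at h2
    simpa using h2

theorem fin_step (n : ℕ) (N : Subgroup (S.D n)) (M : Subgroup (S.D (n + 1)))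
    (hd : ∀ d, d ∈ N ↔ S.root n d = 1 ∧ ∀ x, S.sec n d x ∈ M) (hM : M.index ≠ 0) :
    N.index ≠ 0 := by
  have hf : Finite (S.D (n + 1) ⧸ M) := Subgroup.index_ne_zero_iff_finite.1 hM
  refine Subgroup.index_ne_zero_iff_finite.2 ?_
  let F : S.D n → Equiv.Perm (L.E n) × (L.E n → S.D (n + 1) ⧸ M) :=
    fun d => (S.root n d, fun x => (QuotientGroup.mk (S.sec n d x)))
  have hF : ∀ d e, F d = F e → (QuotientGroup.mk d : S.D n ⧸ N) = QuotientGroup.mk e := by
    intro d e h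
    rw [QuotientGroup.eq, hd]
    have h1 : S.root n d = S.root n e := congrArg Prod.fst h
    refine ⟨by rw [map_mul, map_inv, h1, inv_mul_cancel], fun x => ?_⟩
    have h2 : (QuotientGroup.mk (S.sec n d x) : S.D (n + 1) ⧸ M) =
        QuotientGroup.mk (S.sec n e x) := congrFun (congrArg Prod.snd h) x
    rw [S.sec_mul, ← h1, S.sec_inv']
    exact QuotientGroup.eq.1 h2
  refine Finite.of_surjective (fun t : Set.range F => (QuotientGroup.mk t.2.choose : S.D n ⧸ N)) ?_
  intro q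
  obtain ⟨d, rfl⟩ := QuotientGroup.mk_surjective q
  exact ⟨⟨F d, d, rfl⟩, hF _ _ (Set.mem_range_self (f := F) d : F d ∈ Set.range F).choose_spec⟩

theorem fin (l : ℕ) (R : Subgroup (Equiv.Perm (L.E l))) (n : ℕ)
    (N : Subgroup (S.D n)) (h : S.IsN l R n N) : N.index ≠ 0 := by
  induction h with
  | base =>
    rw [Subgroup.index_comap]
    exact Subgroup.index_ne_zero_of_finite
  | step n N M hM hd ih => exact fin_step S n N M hd ih

theorem mono1 (l : ℕ) (R R' : Subgroup (Equiv.Perm (L.E l))) (hR : R ≤ R') (n : ℕ)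
    (N N' : Subgroup (S.D n)) (h : S.IsN l R n N) (h' : S.IsN l R' n N') : N ≤ N' := by
  induction h with
  | base =>
    rw [inv_eq S l R' _ h']
    exact Subgroup.comap_mono hR
  | step n N M hM hd ih =>
    have hn := le_of S l R _ _ hM
    obtain ⟨M', hM', hd'⟩ := inv_lt S l R' n N' (by omega) h'
    have h1 := ih M' hM'
    intro d hdN
    rw [hd] at hdN
    rw [hd']
    exact ⟨hdN.1, fun x => h1 (hdN.2 x)⟩

theorem mono2 (l : ℕ) (R : Subgroup (Equiv.Perm (L.E l))) (R' : Subgroup (Equiv.Perm (L.E (l + 1))))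
    (n : ℕ) (N N' : Subgroup (S.D n)) (h : S.IsN l R n N) (h' : S.IsN (l + 1) R' n N') :
    N' ≤ N := by
  induction h with
  | base =>
    obtain ⟨M', hM', hd'⟩ := inv_lt S (l + 1) R' l N' (by omega) h'
    intro d hd
    rw [hd'] at hd
    rw [Subgroup.mem_comap, hd.1]
    exact R.one_mem
  | step n N M hM hd ih =>
    have hn := le_of S l R _ _ hM
    obtain ⟨M', hM', hd'⟩ := inv_lt S (l + 1) R' n N' (by omega) h'
    have h1 := ih M' hM'
    intro d hdN
    rw [hd'] at hdN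
    rw [hd]
    exact ⟨hdN.1, fun x => h1 (hdN.2 x)⟩

theorem strict (l : ℕ) (R' : Subgroup (Equiv.Perm (L.E (l + 1))))
    (n : ℕ) (N N' : Subgroup (S.D n)) (h : S.IsN l (L.P l) n N) (h' : S.IsN (l + 1) R' n N') :
    ∃ d ∈ N, d ∉ N' := by
  induction h with
  | base =>
    obtain ⟨M', hM', hd'⟩ := inv_lt S (l + 1) R' l N' (by omega) h'
    obtain ⟨x, _, y, _, hxy⟩ := L.X_two l
    obtain ⟨g, hg, hgx⟩ := L.trans l x y
    refine ⟨S.rt l ⟨g, hg⟩, by rw [Subgroup.mem_comap, S.root_rt]; exact hg, fun hc => ?_⟩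
    rw [hd', S.root_rt] at hc
    have h1 : g = 1 := hc.1
    rw [h1, Equiv.Perm.one_apply] at hgx
    exact hxy hgx
  | step n N M hM hd ih =>
    have hn := le_of S l _ _ _ hM
    obtain ⟨M', hM', hd'⟩ := inv_lt S (l + 1) R' n N' (by omega) h'
    obtain ⟨d, hdM, hdM'⟩ := ih M' hM'
    exact ⟨S.lam n (L.z n) d, (mem_M S n N M hd _ _).1 hdM,
      fun hc => hdM' ((mem_M S n N' M' hd' _ _).2 hc)⟩

theorem t_NR {L : Loc} (S : Sys L) (_hz : Infinite (S.D 0)) : S_NR S := by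
  have hP : ∀ l, ∀ g ∈ L.P l, ∀ r ∈ L.P l, g * r * g⁻¹ ∈ L.P l := fun l g hg r hr =>
    (L.P l).mul_mem ((L.P l).mul_mem hg hr) ((L.P l).inv_mem hg)
  choose T hTn hT using fun l => exi S l (L.P l) (hP l) l 0 (Nat.zero_add l)
  refine ⟨fun l => (T l).index, ?_, ?_, ?_, ?_, ?_, ?_, ?_⟩
  · refine strictMono_nat_of_lt_succ fun l => ?_
    have h1 := mono2 S l _ _ 0 _ _ (hT l) (hT (l + 1))
    obtain ⟨d, hd, hd'⟩ := strict S l _ 0 _ _ (hT l) (hT (l + 1))
    have h2 := Subgroup.relIndex_mul_index h1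
    have h3 := fin S _ _ _ _ (hT l)
    have h4 := fin S _ _ _ _ (hT (l + 1))
    have h5 : (T (l + 1)).relIndex (T l) ≠ 1 := by
      intro h
      exact hd' (Subgroup.relIndex_eq_one.1 h hd)
    have h6 : (T (l + 1)).relIndex (T l) ≠ 0 := by
      intro h
      rw [h, zero_mul] at h2
      exact h4 h2.symm
    change (T l).index < (T (l + 1)).index
    rw [← h2]
    have h7 : 2 ≤ (T (l + 1)).relIndex (T l) := by omega
    nlinarith [Nat.pos_of_ne_zero h3]
  · rw [inv_eq S 0 _ _ (hT 0), Subgroup.index_eq_one, eq_top_iff]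
    intro d _
    rw [Subgroup.mem_comap]
    exact S.root_mem 0 d
  · intro l R N hR _ _ hN
    have h0 := fin S l R 0 N hN
    refine ⟨h0, ?_, ?_⟩
    · exact Nat.le_of_dvd (Nat.pos_of_ne_zero h0)
        (Subgroup.index_dvd_of_le (mono1 S l R (L.P l) hR 0 N (T l) hN (hT l)))
    · exact Nat.le_of_dvd (Nat.pos_of_ne_zero (fin S _ _ _ _ (hT (l + 1))))
        (Subgroup.index_dvd_of_le (mono2 S l R _ 0 N (T (l + 1)) hN (hT (l + 1))))
  · intro l R _ hR
    exact exi S l R hR l 0 (Nat.zero_add l)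
  · intro l R N N' h h'
    exact uni S l R 0 N N' h h'
  · intro l R R' N hR hR' h h'
    exact inj S l R R' hR hR' 0 N h h'
  · intro l R N hR h hJ
    exact jinv S l R hR 0 N h hJ

end Pool.Agent.N291.CG
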